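import Mathlib
import Pool.Agent.H29.XInd

set_option autoImplicit false

namespace Pool.Agent.Results.MP_172133_co.Gap

open Set Pool.Agent.H29.XInd
open scoped Pointwise

variable {G : Type} [Group G]

/-- a bounded integer cocycle lifting the monodromy of `ω` modulo `q` -/
def Conn (K : GCx G) (ω : G) (q : ℕ) (L : ℤ) : Prop :=
  ∃ (ψ : K.V → ZMod q) (d : K.V → K.V → ℤ), (∀ v, ψ (ω • v) = ψ v + 1) ∧
    (∀ u v, d (ω • u) (ω • v) = d u v) ∧ ∀ s ∈ K.face, ∀ u ∈ s, ∀ v ∈ s,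
      (d u v : ZMod q) = ψ v - ψ u ∧ |d u v| ≤ L ∧ ∀ w ∈ s, d u v + d v w = d u w

theorem chain3 {P : GPos G} {a b c : P.P} (h : a ≤ b) (k : b ≤ c) : {a, b, c} ∈ P.Ord.face := by
  refine ⟨insert_nonempty .., (IsChain.singleton.insert ?_).insert ?_⟩
  · rintro _ rfl -
    exact .inl k
  · rintro _ (rfl | rfl) -
    exacts [.inl h, .inl (h.trans k)]

theorem conn_sd {K : GCx G} {ω : G} {q : ℕ} {L : ℤ} (h : Conn K.sd ω q L) :
    Conn K ω q (2 * L) := by
  classical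
  obtain ⟨ψ, d, h1, h2, h3⟩ := h
  let x : K.V → K.F.P := fun v => ⟨{v}, K.vert v⟩
  let e : K.V → K.V → K.F.P := fun u v => if h : {u, v} ∈ K.face then ⟨_, h⟩ else x u
  have hx : ∀ v, x (ω • v) = ω • x v := fun v => Subtype.ext smul_set_singleton.symm
  have he : ∀ u v, e (ω • u) (ω • v) = ω • e u v := fun u v => by
    have k : ω • ({u, v} : Set K.V) = {ω • u, ω • v} := image_pair ..
    by_cases h : {u, v} ∈ K.face
    · simp only [e, dif_pos h, dif_pos (k ▸ K.inv ω _ h)]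
      exact Subtype.ext k.symm
    · simp only [e, dif_neg h]
      rw [dif_neg fun h' => h (by simpa [← k] using K.inv ω⁻¹ _ h'), hx]
  refine ⟨fun v => ψ (x v), fun u v => d (x u) (e u v) + d (e u v) (x v), fun v => by
    simp only [hx, h1],
    fun u v => by simp only [hx, he, h2], fun s hs => ?_⟩
  have key : ∀ u ∈ s, ∀ v ∈ s, ((d (x u) (e u v) + d (e u v) (x v) : ℤ) : ZMod q) =
      ψ (x v) - ψ (x u) ∧ |d (x u) (e u v) + d (e u v) (x v)| ≤ 2 * L ∧
      d (x u) (e u v) + d (e u v) (x v) = d (x u) ⟨s, hs⟩ - d (x v) ⟨s, hs⟩ := by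
    intro u hu v hv
    have k : {u, v} ⊆ s := insert_subset hu (singleton_subset_iff.mpr hv)
    have k' := K.down s hs _ k (insert_nonempty ..)
    simp only [e, dif_pos k']
    have a := h3 _ (chain3 (P := K.F) (a := x u) (b := ⟨_, k'⟩) (c := ⟨s, hs⟩)
      (singleton_subset_iff.mpr (by simp)) k) (x u) (by simp) ⟨_, k'⟩ (by simp)
    have b := h3 _ (chain3 (P := K.F) (a := x v) (b := ⟨_, k'⟩) (c := ⟨s, hs⟩)
      (singleton_subset_iff.mpr (by simp)) k) ⟨_, k'⟩ (by simp) (x v) (by simp)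
    refine ⟨by push_cast; rw [a.1, b.1]; ring, (abs_add_le ..).trans (by linarith [a.2.1, b.2.1]),
      by linarith [a.2.2 ⟨s, hs⟩ (by simp), b.2.2 ⟨s, hs⟩ (by simp)]⟩
  intro u hu v hv
  refine ⟨(key u hu v hv).1, (key u hu v hv).2.1, fun w hw => ?_⟩
  linarith [(key u hu v hv).2.2, (key v hv w hw).2.2, (key u hu w hw).2.2]

theorem conn_iter {K : GCx G} {ω : G} {q : ℕ} (r : ℕ) :
    ∀ L, Conn (GCx.sd^[r] K) ω q L → Conn K ω q (2 ^ r * L) := by
  induction r with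
  | zero => simp
  | succ r ih =>
    intro L h
    rw [Function.iterate_succ_apply'] at h
    rw [pow_succ, mul_assoc]
    exact ih _ (conn_sd h)

theorem equiv_map (X : Type) [MulAction G X] (h : ∀ (g : G) (x : X), g • x = x → g = 1) :
    ∃ φ : X → G, ∀ (g : G) x, φ (g • x) = g * φ x := by
  have k : ∀ x : X, ∃ g : G, g • (Quotient.mk (MulAction.orbitRel G X) x).out = x := fun x =>
    (MulAction.orbitRel G X).symm (Quotient.mk_out x)
  choose φ hφ using k
  refine ⟨φ, fun g x => ?_⟩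
  have a := hφ (g • x)
  rw [Quotient.sound (s := MulAction.orbitRel G X) (a := g • x) (b := x) ⟨g, rfl⟩] at a
  rw [eq_comm, ← inv_mul_eq_one]
  refine h _ (Quotient.mk (MulAction.orbitRel G X) x).out ?_
  rw [mul_smul, inv_smul_eq_iff, mul_smul, hφ, a]

theorem exists_rho (ω : G) : ∃ ρ : G → ZMod (orderOf ω), ∀ g, ρ (ω * g) = ρ g + 1 := by
  obtain ⟨φ, hφ⟩ := equiv_map (G := Subgroup.zpowers ω) G fun g x h =>
    Subtype.ext (mul_eq_right.mp h)
  choose k hk using fun g => (φ g).2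
  refine ⟨fun g => k g, fun g => ?_⟩
  have := congrArg Subtype.val (hφ ⟨ω, Subgroup.mem_zpowers ω⟩ g)
  simp only [Subgroup.coe_mul, ← hk, ← zpow_one_add, zpow_eq_zpow_iff_modEq] at this
  exact ((ZMod.intCast_eq_intCast_iff ..).mpr this).trans (by simp [add_comm])

theorem conn_base [Fintype G] {P : GPos G} {n : ℕ} (hn : n ≤ 1) (h : P.Maps (Q G n)) (ω : G) :
    Conn P.Ord ω (orderOf ω) (orderOf ω) := by
  obtain ⟨f, f1, f2⟩ := h
  obtain ⟨ρ, hρ⟩ := exists_rho ω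
  have : NeZero (orderOf ω) := ⟨(orderOf_pos ω).ne'⟩
  let l : (Q G n).P → (Q G n).P → ℤ := fun a b =>
    if a.2 < b.2 then (ρ b.1 - ρ a.1).val else 0
  refine ⟨fun v => ρ (f v).1, fun u v => l (f u) (f v) - l (f v) (f u), fun v =>
    (congrArg (fun x : (Q G n).P => ρ x.1) (f2 ω v)).trans (hρ _), fun u v => ?_, fun s hs => ?_⟩
  · have : ∀ a b, l (ω • a) (ω • b) = l a b := fun a b => by
      change (if a.2 < b.2 then ((ρ (ω * b.1) - ρ (ω * a.1)).val : ℤ) else 0) = _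
      simp only [hρ, add_sub_add_right_eq_sub, l]
    simp only [f2, this]
  have c : ∀ u ∈ s, ∀ v ∈ s, f u = f v ∨ (f u).2 ≠ (f v).2 := fun u hu v hv => by
    rcases hs.2.total hu hv with h | h <;> rcases f1 h with k | k
    exacts [.inl k, .inr k.ne, .inl k.symm, .inr k.ne']
  intro u hu v hv
  refine ⟨?_, ?_, fun w hw => ?_⟩
  · rcases c u hu v hv with k | k
    · simp [k]
    · rcases k.lt_or_gt with k | k <;> simp [l, k, k.not_gt]
  · have a := (ρ (f v).1 - ρ (f u).1).val_lt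
    have b := (ρ (f u).1 - ρ (f v).1).val_lt
    simp only [l, abs_le]
    split_ifs <;> omega
  · rcases c u hu v hv with k | k
    · simp [k]
    rcases c v hv w hw with k' | k'
    · simp [k']
    rcases c u hu w hw with k'' | k''
    · simp [k'']
    have := (f u).2.2
    have := (f v).2.2
    have := (f w).2.2
    simp only [Ne, Fin.ext_iff] at k k' k''
    omega

def FF (K : GCx G) : Prop := ∀ (g : G) (s : K.F.P), g • s = s → g = 1

theorem card_lt {K : GCx G} {a b : K.F.P} (h : a ≤ b) : a = b ∨ a.1.ncard < b.1.ncard :=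
  h.eq_or_lt.imp_right fun k => ncard_lt_ncard k

theorem FF.sd {K : GCx G} (h : FF K) : FF K.sd := fun g s k => by
  obtain ⟨a, ha⟩ := s.2.1
  have hb : g • a ∈ s.1 := (congrArg Subtype.val k).subset (smul_mem_smul_set ha)
  have e : (g • a).1.ncard = a.1.ncard := ncard_smul_set g a.1
  rcases s.2.2.total ha hb with k | k <;> rcases card_lt k with k | k
  exacts [h g a k.symm, by omega, h g a k, by omega]

theorem FF.maps [Fintype G] {K : GCx G} (h : FF K) : K.F.Maps (Q G (Nat.card K.V)) := by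
  obtain ⟨φ, hφ⟩ := equiv_map K.F.P h
  refine ⟨fun a => (φ a, ⟨a.1.ncard, Nat.lt_succ_of_le (ncard_le_card _)⟩), fun a b k => ?_,
    fun g a => Prod.ext (hφ g a) (Fin.ext (ncard_smul_set g a.1))⟩
  rcases card_lt k with rfl | k
  exacts [le_rfl, .inr k]

@[ext] structure Vx (G : Type) (N : ℕ) where
  g : G
  A : Finset (Fin 3)
  ne : A.Nonempty
  f : Fin 3 → ℕ
  le : ∀ i, f i ≤ N

instance (N : ℕ) : MulAction G (Vx G N) where
  smul := fun g a => { a with g := g * a.g }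
  one_smul := fun _ => Vx.ext (one_mul _) rfl rfl
  mul_smul := fun _ _ _ => Vx.ext (mul_assoc ..) rfl rfl

variable [Fintype G]

instance (N : ℕ) : Finite (Vx G N) :=
  .of_injective (fun a => (a.g, a.A, fun i => (⟨a.f i, Nat.lt_succ_of_le (a.le i)⟩ : Fin (N + 1))))
    fun a b h => by
      simp only [Prod.mk.injEq, funext_iff, Fin.mk.injEq] at h
      exact Vx.ext h.1 h.2.1 (funext h.2.2)

/-- integer functions on nonempty subsets of three positions, glued along `ω` -/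
noncomputable abbrev Kx (ω : G) (N : ℕ) : GCx G where
  V := Vx G N
  fin := Fintype.ofFinite _
  face := {s | s.Nonempty ∧ ∃ i γ, ∀ u ∈ s, (i ∈ u.A ∧ u.g * ω ^ u.f i = γ) ∧
    ∀ v ∈ s, ∀ k ∈ u.A, k ∈ v.A → (u.f k : ℤ) - v.f k = u.f i - v.f i}
  ne := fun _ h => h.1
  down := fun _ ⟨_, i, γ, h⟩ _ k k' =>
    ⟨k', i, γ, fun u hu => ⟨(h u (k hu)).1, fun v hv => (h u (k hu)).2 v (k hv)⟩⟩
  vert := fun v => ⟨singleton_nonempty v, _, _, by
    rintro _ rfl
    exact ⟨⟨Exists.choose_spec (Vx.ne _), rfl⟩, by simp⟩⟩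
  inv := fun g _ ⟨a, i, γ, h⟩ => ⟨a.smul_set, i, g * γ, by
    rintro _ ⟨u, hu, rfl⟩
    refine ⟨⟨(h u hu).1.1, (mul_assoc ..).trans (congrArg _ (h u hu).1.2)⟩, ?_⟩
    rintro _ ⟨v, hv, rfl⟩
    exact (h u hu).2 v hv⟩

theorem Kx_free {ω g : G} {N : ℕ} {s : Set (Vx G N)} (h : s ∈ (Kx ω N).face) {v : Vx G N}
    (a : v ∈ s) (b : g • v ∈ s) : g = 1 := by
  obtain ⟨-, i, γ, h⟩ := h
  exact mul_eq_right.mp (mul_right_cancel ((h _ b).1.2.trans (h _ a).1.2.symm))

theorem Kx_maps (ω : G) (N : ℕ) : (Kx ω N).Maps (Q G 1).Ord := by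
  let j : Vx G N → Vx G N → Fin 3 := fun u v => Classical.epsilon fun i => i ∈ u.A ∧ i ∈ v.A
  refine maps_one _ ω (·.g) (fun u v => u.f (j u v) - v.f (j u v)) (fun _ _ => rfl)
    (fun _ _ _ => rfl) ?_
  rintro s ⟨-, i, γ, h⟩
  have k : ∀ u ∈ s, ∀ v ∈ s, (u.f (j u v) : ℤ) - v.f (j u v) = u.f i - v.f i :=
    fun u hu v hv =>
    have := Classical.epsilon_spec (p := fun i => i ∈ u.A ∧ i ∈ v.A)
      ⟨i, (h u hu).1.1, (h v hv).1.1⟩
    (h u hu).2 v hv _ this.1 this.2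
  intro u hu v hv
  refine ⟨?_, fun w hw => by rw [k u hu v hv, k v hv w hw, k u hu w hw, sub_add_sub_cancel]⟩
  rw [k u hu v hv, zpow_sub, ← mul_assoc, zpow_natCast, zpow_natCast, (h u hu).1.2,
    ← (h v hv).1.2, mul_inv_cancel_right]

theorem Kx_not {ω : G} {q : ℕ} (hq : q ≠ 1) {N : ℕ} {L : ℤ} (hL : 4 * L < N) :
    ¬Conn (Kx ω (N + 1)) ω q L := by
  rintro ⟨ψ, d, h1, h2, h3⟩
  have h2' : ∀ (a : ℕ) u v, d (ω ^ a • u) (ω ^ a • v) = d u v := fun a u v => by
    induction a with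
    | zero => simp
    | succ a ih => rw [pow_succ', mul_smul, mul_smul, h2, ih]
  let x : Fin 3 → G → Vx G (N + 1) := fun i g => ⟨g, {i}, by simp, 0, by simp⟩
  let D : Vx G (N + 1) → Fin 3 → ℤ := fun v i => d (x i (v.g * ω ^ v.f i)) v
  have tri : ∀ u v : Vx G (N + 1), ∀ i ∈ u.A, i ∈ v.A → u.g * ω ^ u.f i = v.g * ω ^ v.f i →
      (∀ k ∈ u.A, (u.f k : ℤ) - v.f k = u.f i - v.f i) → D u i + d u v = D v i ∧ |D u i| ≤ L ∧
        (D u i : ZMod q) = ψ u - ψ (x i (u.g * ω ^ u.f i)) := by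
    intro u v i a b c e
    have : {x i (u.g * ω ^ u.f i), u, v} ∈ (Kx ω (N + 1)).face := by
      refine ⟨insert_nonempty .., i, u.g * ω ^ u.f i, ?_⟩
      rintro _ (rfl | rfl | rfl) <;> refine ⟨⟨by simp [x, *], by simp [x, c]⟩, ?_⟩ <;>
        rintro _ (rfl | rfl | rfl) k h h' <;>
        first | rw [Finset.mem_singleton.mp h] | rw [Finset.mem_singleton.mp h']
              | linarith [e k h] | linarith [e k h'] | simp
    have := h3 _ this (x i (u.g * ω ^ u.f i)) (by simp) u (by simp)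
    exact ⟨by simp only [D, ← c]; exact this.2.2 v (by simp), this.2.1, this.1⟩
  let w : (a b : ℕ) → a + b ≤ N + 1 → Vx G (N + 1) := fun a b h =>
    ⟨1, Finset.univ, by simp, ![0, a, a + b], fun i => by fin_cases i <;> simp <;> omega⟩
  let α : (a : ℕ) → a ≤ N + 1 → Vx G (N + 1) := fun a h =>
    ⟨1, {0, 1}, by simp, ![0, a, 0], fun i => by fin_cases i <;> simp [h]⟩
  let β : (a : ℕ) → a ≤ N + 1 → Vx G (N + 1) := fun a h =>
    ⟨1, {1, 2}, by simp, ![0, 0, a], fun i => by fin_cases i <;> simp [h]⟩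
  let γ : (a : ℕ) → a ≤ N + 1 → Vx G (N + 1) := fun a h =>
    ⟨1, {0, 2}, by simp, ![0, 0, a], fun i => by fin_cases i <;> simp [h]⟩
  have rel : ∀ a b (h : a + b ≤ N + 1), D (α a (by omega)) 0 - D (α a (by omega)) 1 +
      (D (β b (by omega)) 1 - D (β b (by omega)) 2) = D (γ _ h) 0 - D (γ _ h) 2 := by
    intro a b h
    have hD : ∀ v i, D (ω ^ a • v) i = D v i := fun v i => by
      refine Eq.trans ?_ (h2' a ..)
      exact congrArg (d · _) (Vx.ext (mul_assoc ..) rfl rfl)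
    have e1 := (tri (α a (by omega)) (w a b h) 0 (by simp [α]) (by simp [w]) rfl
      (by simp [α, w])).1
    have e2 := (tri (α a (by omega)) (w a b h) 1 (by simp [α]) (by simp [w]) rfl
      (by simp [α, w])).1
    have e3 := (tri (γ _ h) (w a b h) 0 (by simp [γ]) (by simp [w]) rfl (by simp [γ, w])).1
    have e4 := (tri (γ _ h) (w a b h) 2 (by simp [γ]) (by simp [w]) rfl (by simp [γ, w])).1
    have e5 := (tri (ω ^ a • β b (by omega)) (w a b h) 1 (show 1 ∈ {1, 2} by simp) (by simp [w])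
      (show ω ^ a * 1 * ω ^ 0 = 1 * ω ^ a by simp)
      (show ∀ k ∈ ({1, 2} : Finset (Fin 3)), ((![0, 0, b] k : ℕ) : ℤ) - _ = (0 : ℕ) - _ by
        simp [w])).1
    have e6 := (tri (ω ^ a • β b (by omega)) (w a b h) 2 (show 2 ∈ {1, 2} by simp) (by simp [w])
      (show ω ^ a * 1 * ω ^ b = 1 * ω ^ (a + b) by simp [pow_add])
      (show ∀ k ∈ ({1, 2} : Finset (Fin 3)), ((![0, 0, b] k : ℕ) : ℤ) - _ = b - _ by simp [w])).1
    rw [hD] at e5 e6
    linarith
  have bd : ∀ u i, i ∈ u.A → |D u i| ≤ L ∧ (D u i : ZMod q) = ψ u - ψ (x i (u.g * ω ^ u.f i)) :=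
    fun u i h => (tri u u i h h rfl (by simp)).2
  set δ := D (β 1 (by omega)) 1 - D (β 1 (by omega)) 2 - (D (β 0 (by omega)) 1 -
    D (β 0 (by omega)) 2) with hδ
  have lin : ∀ a (h : a ≤ N + 1), D (α a h) 0 - D (α a h) 1 =
      D (α 0 (by omega)) 0 - D (α 0 (by omega)) 1 + a * δ := fun a => by
    induction a with
    | zero => simp
    | succ a ih =>
      intro h
      have := rel a 1 h
      have := rel (a + 1) 0 h
      have := ih (by omega)
      push_cast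
      linarith
  have hδ0 : δ ≠ 0 := fun e => by
    have k : ((δ : ℤ) : ZMod q) = 1 := by
      have : x 2 (1 * ω ^ 1) = ω • x 2 (1 * ω ^ 0) := Vx.ext (show _ = ω * _ by simp [x]) rfl rfl
      simp only [hδ, Int.cast_sub, (bd (β _ _) 1 (by simp [β])).2, (bd (β _ _) 2 (by simp [β])).2]
      change _ - ψ (x 1 (1 * ω ^ 0)) - (_ - ψ (x 2 (1 * ω ^ 1))) -
        (_ - ψ (x 1 (1 * ω ^ 0)) - (_ - ψ (x 2 (1 * ω ^ 0)))) = _
      rw [this, h1]
      ring
    have := ZMod.nontrivial_iff.mpr hq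
    simp [e] at k
  have := lin N (by omega)
  have a := abs_le.mp (bd (α N (by omega)) 0 (by simp [α])).1
  have b := abs_le.mp (bd (α N (by omega)) 1 (by simp [α])).1
  have c := abs_le.mp (bd (α 0 (by omega)) 0 (by simp [α])).1
  have e := abs_le.mp (bd (α 0 (by omega)) 1 (by simp [α])).1
  rcases hδ0.lt_or_gt with k | k <;> nlinarith

theorem result (G : Type) [Group G] [Fintype G] [Nontrivial G] (r : ℕ) :
    ∃ K : GCx G, K.Free ∧ ∃ a b : ℕ, IsLeast {k | K.Maps (Q G k).Ord} a ∧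
      IsLeast {n | (GCx.sd^[r] K).F.Maps (Q G n)} b ∧ a < b := by
  classical
  obtain ⟨ω, hω⟩ := exists_ne (1 : G)
  let N := 4 * (2 ^ (r + 1) * orderOf ω) + 1
  have ff : ∀ r, FF (GCx.sd^[r] (Kx ω (N + 1))) := fun r => by
    induction r with
    | zero =>
      intro g s h
      obtain ⟨v, hv⟩ := s.2.1
      exact Kx_free s.2 hv ((congrArg Subtype.val h).subset (smul_mem_smul_set hv))
    | succ r ih =>
      rw [Function.iterate_succ_apply']
      exact ih.sd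
  have h1 : ∃ k, (Kx ω (N + 1)).Maps (Q G k).Ord := ⟨1, Kx_maps ..⟩
  have h2 : ∃ n, (GCx.sd^[r] (Kx ω (N + 1))).F.Maps (Q G n) := ⟨_, (ff r).maps⟩
  refine ⟨Kx ω (N + 1), fun g t ht h => ?_, Nat.find h1, Nat.find h2, Nat.isLeast_find h1,
    Nat.isLeast_find h2, (Nat.find_min' h1 (Kx_maps ..)).trans_lt (not_le.mp fun k => ?_)⟩
  · obtain ⟨v, hv⟩ := ht.2.2.1
    refine Kx_free ht.2.2 hv ?_
    rw [← h]
    simpa [tr] using hv
  · have := conn_iter r _ (conn_sd (conn_base k (Nat.find_spec h2) ω))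
    refine Kx_not (N := N) (mt orderOf_eq_one_iff.mp hω) ?_ this
    simp [N, pow_succ, mul_assoc]

end Pool.Agent.Results.MP_172133_co.Gap
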